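import Pool.Agent.W998.KG.Stm3

set_option autoImplicit false

namespace Pool.Agent.W33.KG.EVN

open Pool.Agent.Results.MP_633d19_co.SmallDegree
open Pool.Agent.Results.MP_633d19_co.SmallDegree.MGraph
open Pool.Agent.W998.KG

theorem main : PartEVN := by
  classical
  intro V E _ _ G k l n y f h pr α β c hl hodd hln hT hE hC
  have hpp : G.PP c := hT.st.pp
  have hpart : ∀ i, i ∈ Finset.Icc l n → ∃ j, j ∈ Finset.Icc l n ∧ j ≠ i ∧
      G.nb c α (y i) = y j := by
    intro i hi
    rw [Finset.mem_Icc] at hi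
    obtain ⟨hil, hin⟩ := hi
    obtain ⟨e, he1, he2⟩ := G.exists_of_not_miss hpp ((hE.2 i hil hin).1)
    have hmem : y i ∈ G.ends e := by
      rw [he2]
      simp
    obtain ⟨j, hjn, hj⟩ := hC i hin e α hmem he1 ⟨0, Nat.zero_le _, hT.st.ma 0 (by omega)⟩
    refine ⟨j, ?_, ?_, G.nb_eq hpp he1 hj⟩
    · rw [Finset.mem_Icc]
      refine ⟨?_, hjn⟩
      by_contra hcon
      exact hT.st.ma j (not_le.mp hcon) e (by rw [hj]; simp) he1
    · rintro rfl
      apply G.loopless e
      rw [hj]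
      simp
  choose! g hg1 hg2 hg3 using hpart
  have hinv : ∀ i, i ∈ Finset.Icc l n → g (g i) = i := by
    intro i hi
    have h1 := hg3 i hi
    have h2 := hg3 (g i) (hg1 i hi)
    rw [← h1, G.nb_invol hpp α (y i)] at h2
    have hi' := hi
    have hgg := hg1 (g i) (hg1 i hi)
    rw [Finset.mem_Icc] at hi' hgg
    exact (hT.inj i hi'.2 (g (g i)) hgg.2 h2).symm
  have hsum : ∑ _x ∈ Finset.Icc l n, (1 : ZMod 2) = 0 := by
    refine Finset.sum_involution (fun a _ => g a) ?_ ?_ ?_ ?_
    · intro a ha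
      decide
    · intro a ha _
      exact hg2 a ha
    · intro a ha
      exact hg1 a ha
    · intro a ha
      exact hinv a ha
  rw [Finset.sum_const, nsmul_eq_mul, mul_one, ZMod.natCast_eq_zero_iff, Nat.card_Icc] at hsum
  omega

end Pool.Agent.W33.KG.EVN
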